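import Pool.Agent.K9h40.FP4.Defs

/-!
# Admissible exponents: definitions
-/

open CategoryTheory AlgebraicGeometry

universe u

namespace Pool.Agent.K9h40.OPD

open Pool.Agent.H914 Pool.Agent.H914.VarClass Pool.Agent.H914.VarClass.Obj
  Pool.Agent.H914.WeilCohomology
open Pool.Agent.Y121.AHS Pool.Agent.N996.BP Pool.Agent.K9h40.FP4

section

variable {K A : Type} [Field K] [Algebra K ℂ] [Ring A] [Algebra K A]

/-- The elements of the centre of the algebra of the endomorphisms of the Hodge structure are
self-adjoint for `ψ`: the centre is a product of totally real fields. -/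
def RealCentre (pq : Bigr K A) (ψ : Bil K A) : Prop :=
  ∀ f, IsCentral pq f → ∀ c d, ψ (f c) d = ψ c (f d)

/-- The sum of all `(p - q) Tr(f | pq p q)` is zero for all elements `f` of the centre. (It means
that the Hodge group is semisimple.) -/
def TraceFree (pq : Bigr K A) : Prop :=
  ∀ f, IsCentral pq f → ∀ F, IsWeighted pq f F → LinearMap.trace ℂ (Ext K ℂ A) F = 0

/-- The exponent `N` is admissible for the Hodge structure, which has a polarisation `ψ`: it is
the maximum of `4` and `t` if the centre is a product of totally real fields, the maximum of `4` and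
`t ^ 2 / 4` if the Hodge group is semisimple, and the maximum of `4` and `(d t) ^ t` in general. -/
def Admissible (h : IsRat K) (d : ℕ) (pq : Bigr K A) (t N : ℕ) : Prop :=
  ∃ ψ, IsPol h d pq ψ ∧ ((RealCentre pq ψ ∧ N = max 4 t) ∨ (TraceFree pq ∧ N = max 4 (t ^ 2 / 4)) ∨
    N = max 4 ((d * t) ^ t))

/-- The codimension of the subspace spanned by a set. -/
noncomputable def codim (K : Type) {A : Type} [Field K] [Ring A] [Algebra K A] (S : Set A) : ℕ :=
  Module.finrank K A - Set.finrank K S

end

variable {k : Type u} [Field k] {𝒱 : VarClass k} {ops : CycleOps 𝒱}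

/-- The number of the transcendental classes: the codimension of the subspace of `H(X)` spanned by
the Hodge classes. -/
noncomputable def transDim (T : HodgeTheory ops) (X : 𝒱.Obj) : ℕ :=
  codim T.W.K {c : T.W.H X | ∃ j, IsHodge T X j c}

end Pool.Agent.K9h40.OPD
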