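import Pool.Agent.K9h40.FP4.Fin
import Pool.Agent.K9h40.OPD.Defs
import Pool.Agent.N996.FP.FinT

/-!
# One power decides
-/

set_option linter.unusedSectionVars false
set_option maxHeartbeats 400000

open CategoryTheory AlgebraicGeometry TensorProduct Filter Topology

universe u

namespace Pool.Agent.K9h40.OPD

open Module
open Pool.Agent.H914 Pool.Agent.H914.VarClass Pool.Agent.H914.VarClass.Obj
  Pool.Agent.H914.WeilCohomology
open Pool.Agent.Y121 Pool.Agent.Y121.AHS Pool.Agent.Y121.AHS.Full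
open Pool.Agent.Y133.Half (pw ClassPred Sys AtMostHalf)
open Pool.Agent.Y121.AH (hodgePred)
open Pool.Agent.N996.BP.Geo Pool.Agent.N996.FP.Geo
open Pool.Agent.K9h40.FP4

variable {k : Type u} [Field k] {𝒱 : VarClass k} {ops : CycleOps 𝒱} {T : AHS.HodgeTheory ops}
  {X : 𝒱.Obj}

lemma transDim_eq : transDim T X = Pool.Agent.N996.FP.transBetti T X :=
  (Submodule.finrank_quotient _).symm

/-- The abstract form. -/
theorem decides (T : AHS.HodgeTheory ops) (D : Full.Conjugates T) (X : 𝒱.Obj) {N : ℕ}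
    (hN : Admissible T.rat X.dim (T.pq X) (transDim T X) N)
    (h : AllAbsolute D (pw X (N - 1))) (n : ℕ) : AllAbsolute D (pw X n) := by
  obtain ⟨ψ, hψ, hc⟩ := hN
  have hψ' : Pool.Agent.N996.FP.IsPolarisation T X ψ :=
    ⟨hψ.range, hψ.conj, hψ.orth, hψ.pos⟩
  rw [transDim_eq] at hc
  have h1 : Pool.Agent.N996.FP.AdmT T X ψ (Pool.Agent.N996.FP.transBetti T X) N := by
    rcases hc with ⟨h1, h2⟩ | ⟨h1, h2⟩ | h2
    · exact Or.inl ⟨h1, h2⟩
    · exact Or.inr (Or.inl ⟨h1, h2⟩)
    · exact Or.inr (Or.inr h2)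
  have h2 := Pool.Agent.N996.FP.admT_c hψ' h1 ((AH.absSys (toD D)).csys X)
    (fun n => AH.abs_le_hodge (D := toD D) (pw X n))
    (by
      intro c hc
      refine ClassPred.sp_ind (Q := hodgePred (toH T)) (q := fun c =>
        c ∈ ((AH.absSys (toD D)).csys X).C (N - 1)) ?_ ?_ ?_ hc
      · intro j x hx
        exact Submodule.subset_span ⟨j, isAbsHodge_iff.2 (h j x hx)⟩
      · exact Submodule.zero_mem _
      · intro a b ha hb; exact Submodule.add_mem _ ha hb)
  intro j c hc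
  have h3 : c ∈ (AH.absPred (toD D)).sp (pw X n) :=
    h2 n (ClassPred.sp_of (Q := hodgePred (toH T)) hc)
  have h4 := ClassPred.of_sp (Q := AH.absPred (toD D)) h3 hc.1
  exact isAbsHodge_iff.1 h4

end Pool.Agent.K9h40.OPD
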